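import Pool.Agent.Results.MP_be1fae_nt.WindowsWithoutSolutions
import Pool.Agent.V11001.KM.Near
import Pool.Agent.V11001.KM.Zero
import Pool.Agent.V11001.KM.NatSet

/-!
# Generalised Fermat equations with S-unit coefficients with bases near the powers of almost every real number

A solution `a x ^ p + b y ^ q = c z ^ r` with coefficients composed of primes of `S` is called reduced if no prime of `S`
divides `x y z` and `|x|`, `|y|`, `|z|` are `1` or no perfect powers. Let `ν n / log n → ∞`, for example `ν n = n`. For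
almost every real `w > 1` and all `θ < 2 / 3` there is `R` such that there is no reduced solution with two exponents `≥ R`,
`|x y z|` large and `||x y z| - w ^ (ν n)| ≤ w ^ (θ ν n)` for some `n`. If `2 ∉ S`, then for all `w > 1` outside a set of
dimension zero and all `θ < 1` there is `R` such that there is no reduced solution with two exponents `≥ R`,
`M = max (|x|, |y|, |z|)` large and `|M - w ^ (ν n)| ≤ w ^ (θ ν n)` for some `n`.
-/

set_option autoImplicit false

open Finset Filter Topology MeasureTheory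
open scoped ENNReal

namespace Pool.Agent.Results.MP_be1fae_nt.BasesNearPowers

open AllSolutionsByBases (Solution TwoLarge ByBases ByProduct Bases)
open WindowsWithoutSolutions (Reduced Val card_val)
open Pool.Agent.V11001.KM

open Classical in
lemma count_product (S : Finset ℕ) (ε : ℝ) (hε : 0 < ε) : ∃ (R : ℕ) (C : ℝ), ∀ X : ℝ, 1 ≤ X →
    {m : ℕ | m ∈ Val S R (fun x y z => x * y * z) ∧ (m : ℝ) ≤ X}.Finite ∧
      ({m : ℕ | m ∈ Val S R (fun x y z => x * y * z) ∧ (m : ℝ) ≤ X}.ncard : ℝ) ≤ C * X ^ (1 / 3 + ε) := by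
  obtain ⟨R, C, hC, h⟩ := AllSolutionsByBases.result.2.2 S (ε / 2) (by positivity)
  refine ⟨R, ?_⟩
  have key := count_of_nat (Val S R (fun x y z => x * y * z)) (s := 1 / 3 + ε / 2) (ε := ε / 2) (by positivity)
    (by positivity) ⟨C, fun X hX => by
      have hX1 : (1 : ℝ) ≤ X := by exact_mod_cast hX
      obtain ⟨h5, h6⟩ := h X hX1
      have h7 := card_val S R (fun x y z => x * y * z) X (ByProduct S R X) h5 (by
        intro a b c x y z p q r hred hle
        refine ⟨a, b, c, x, y, z, p, q, r, hred.1, rfl, hred.2.1, hred.2.2.2.2.2.2, ?_⟩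
        have h8 : ((x.natAbs * y.natAbs * z.natAbs : ℕ) : ℝ) ≤ X := by exact_mod_cast hle
        rw [← Int.natAbs_mul, ← Int.natAbs_mul, Nat.cast_natAbs, Int.cast_abs] at h8
        exact h8)
      have h9 : (((Ioc 0 X).filter (fun t => t ∈ Val S R (fun x y z => x * y * z))).card : ℝ) ≤
          ((ByProduct S R X).ncard : ℝ) := by exact_mod_cast h7
      refine h9.trans (h6.trans ?_)
      apply mul_le_mul_of_nonneg_left _ hC.le
      apply Real.rpow_le_rpow_of_exponent_le hX1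
      linarith⟩
  obtain ⟨K, hK⟩ := key
  refine ⟨K, fun X hX => ?_⟩
  have he : 1 / 3 + ε / 2 + ε / 2 = 1 / 3 + ε := by ring
  rw [← he]
  exact hK X hX

open Classical in
lemma count_max (S : Finset ℕ) (h2 : 2 ∉ S) (ε : ℝ) (hε : 0 < ε) : ∃ (R : ℕ) (C : ℝ), ∀ X : ℝ, 1 ≤ X →
    {m : ℕ | m ∈ Val S R (fun x y z => max (max x y) z) ∧ (m : ℝ) ≤ X}.Finite ∧
      ({m : ℕ | m ∈ Val S R (fun x y z => max (max x y) z) ∧ (m : ℝ) ≤ X}.ncard : ℝ) ≤ C * X ^ ε := by
  obtain ⟨R, C, hC, h⟩ := AllSolutionsByBases.result.2.1 S (ε / 2) h2 (by positivity)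
  refine ⟨R, ?_⟩
  have key := count_of_nat (Val S R (fun x y z => max (max x y) z)) (s := ε / 2) (ε := ε / 2) (by positivity)
    (by positivity) ⟨C, fun X hX => by
      have hX1 : (1 : ℝ) ≤ X := by exact_mod_cast hX
      obtain ⟨h5, h6⟩ := h X hX1
      have h7 := card_val S R (fun x y z => max (max x y) z) X (ByBases S R X) h5 (by
        intro a b c x y z p q r hred hle
        have hb : ∀ u : ℤ, u.natAbs ≤ X → |(u : ℝ)| ≤ X := by
          intro u hu
          have h8 : ((u.natAbs : ℕ) : ℝ) ≤ X := by exact_mod_cast hu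
          rwa [Nat.cast_natAbs, Int.cast_abs] at h8
        have hle' : max (max x.natAbs y.natAbs) z.natAbs ≤ X := hle
        rw [max_le_iff, max_le_iff] at hle'
        exact ⟨a, b, c, x, y, z, p, q, r, hred.1, rfl, hred.2.1, hred.2.2.2.2.2.2,
          hb x hle'.1.1, hb y hle'.1.2, hb z hle'.2⟩)
      have h9 : (((Ioc 0 X).filter (fun t => t ∈ Val S R (fun x y z => max (max x y) z))).card : ℝ) ≤
          ((ByBases S R X).ncard : ℝ) := by exact_mod_cast h7
      refine h9.trans (h6.trans ?_)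
      apply mul_le_mul_of_nonneg_left _ hC.le
      apply Real.rpow_le_rpow_of_exponent_le hX1
      linarith⟩
  obtain ⟨K, hK⟩ := key
  refine ⟨K, fun X hX => ?_⟩
  have he : ε / 2 + ε / 2 = ε := by ring
  rw [← he]
  exact hK X hX

/-- there is no reduced solution with two exponents `≥ R` and a large `f (|x|, |y|, |z|)` near the numbers
`β w ^ (ν n)` -/
def Law (S : Finset ℕ) (R : ℕ) (f : ℕ → ℕ → ℕ → ℕ) (ν : ℕ → ℝ) (θ β w : ℝ) : Prop :=
  ∃ H₀ : ℝ, ∀ (a b c x y z : ℤ) (p q r : ℕ), Reduced S R a b c x y z p q r →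
    H₀ ≤ (f x.natAbs y.natAbs z.natAbs : ℝ) → ¬ Near ν θ β w (f x.natAbs y.natAbs z.natAbs : ℝ)

lemma law_of {S : Finset ℕ} {R : ℕ} {f : ℕ → ℕ → ℕ → ℕ} {ν : ℕ → ℝ} {θ β w : ℝ}
    (h : {t : ℕ | t ∈ Val S R f ∧ ∃ n : ℕ, |(t : ℝ) - β * w ^ ν n| ≤ w ^ (θ * ν n)}.Finite) : Law S R f ν θ β w := by
  obtain ⟨H₀, hH⟩ := bound_of_finite (fun t : ℕ => (t : ℝ)) h
  refine ⟨H₀, fun a b c x y z p q r hred hle hnear => ?_⟩
  exact absurd (hH _ ⟨⟨a, b, c, x, y, z, p, q, r, hred, rfl⟩, hnear⟩) (not_lt.2 hle)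

/-- **Theorem.** Let `S` be a finite set of numbers, `ν n / log n → ∞` and `U` a countable set of real numbers.
(1) For `θ < 1` there is a set `E` of Hausdorff dimension at most `1 / (3 (1 - θ))` such that for each `w > 1` outside `E`
there is `R` such that for each positive `β` in `U` there is no reduced `S`-solution `a x ^ p + b y ^ q = c z ^ r` with at
least two exponents `≥ R`, `|x y z|` sufficiently large and `||x y z| - β w ^ (ν n)| ≤ w ^ (θ ν n)` for some `n`.
(2) For almost every `w > 1` the same holds for all `θ < 2 / 3`.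
(3) If `2 ∉ S`, there is a set `E` of dimension zero such that for each `w > 1` outside `E` and each `θ < 1` there is `R`
such that for each positive `β` in `U` there is no reduced `S`-solution with at least two exponents `≥ R`,
`M = max (|x|, |y|, |z|)` sufficiently large and `|M - β w ^ (ν n)| ≤ w ^ (θ ν n)` for some `n`. -/
theorem result : ∀ (S : Finset ℕ) (ν : ℕ → ℝ), Fast ν → ∀ U : Set ℝ, U.Countable →
    (∀ θ : ℝ, θ < 1 → ∃ E : Set ℝ, dimH E ≤ ENNReal.ofReal (1 / 3 / (1 - θ)) ∧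
      ∀ w : ℝ, 1 < w → w ∉ E → ∃ R : ℕ, ∀ β ∈ U, 0 < β → Law S R (fun x y z => x * y * z) ν θ β w) ∧
    (∀ᵐ w : ℝ, 1 < w → ∀ θ : ℝ, θ < 2 / 3 → ∃ R : ℕ, ∀ β ∈ U, 0 < β → Law S R (fun x y z => x * y * z) ν θ β w) ∧
    (2 ∉ S → ∃ E : Set ℝ, dimH E = 0 ∧ ∀ w : ℝ, 1 < w → w ∉ E → ∀ θ : ℝ, θ < 1 →
      ∃ R : ℕ, ∀ β ∈ U, 0 < β → Law S R (fun x y z => max (max x y) z) ν θ β w) := by
  intro S ν hν U hU
  have h1 : ∀ j : ℕ, _ := fun j => count_product S (1 / ((j : ℝ) + 1)) (by positivity)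
  choose R C hR using h1
  refine ⟨fun θ hθ => ?_, ?_, fun h2 => ?_⟩
  · obtain ⟨E, h3, h4⟩ := inter_family (Q := Unit) (J := Unit) (fun m : ℕ => (m : ℝ)) hν (s := 1 / 3)
      (by norm_num) hθ U hU (fun _ j _ => Val S (R j) (fun x y z => x * y * z)) (fun _ j _ => ⟨C j, hR j⟩)
    refine ⟨E, h3, fun w hw hwE => ?_⟩
    obtain ⟨j, hj⟩ := h4 w hw hwE ()
    exact ⟨R j, fun β hβ hβ0 => law_of (hj β hβ hβ0 ())⟩
  · filter_upwards [ae_inter_family (Q := Unit) (J := Unit) (fun m : ℕ => (m : ℝ)) hν (s := 1 / 3)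
      (by norm_num) U hU (fun _ j _ => Val S (R j) (fun x y z => x * y * z)) (fun _ j _ => ⟨C j, hR j⟩)]
      with w hw hw1 θ hθ
    obtain ⟨j, hj⟩ := hw hw1 θ (by linarith) ()
    exact ⟨R j, fun β hβ hβ0 => law_of (hj β hβ hβ0 ())⟩
  · have h1 : ∀ j : ℕ, _ := fun j => count_max S h2 (1 / ((j : ℝ) + 1)) (by positivity)
    choose R' C' hR' using h1
    obtain ⟨E, h3, h4⟩ := zero_family (Q := Unit) (J := Unit) (fun m : ℕ => (m : ℝ)) hν U hU
      (fun _ j _ => Val S (R' j) (fun x y z => max (max x y) z)) (fun _ j _ => ⟨C' j, hR' j⟩)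
    refine ⟨E, h3, fun w hw hwE θ hθ => ?_⟩
    obtain ⟨j, hj⟩ := h4 w hw hwE θ hθ ()
    exact ⟨R' j, fun β hβ hβ0 => law_of (hj β hβ hβ0 ())⟩

end Pool.Agent.Results.MP_be1fae_nt.BasesNearPowers
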