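import Pool.Agent.Results.MP_be1fae_nt.SolutionsByBases
import Pool.Agent.H107.NearFam

/-!
# Solutions of `a x ^ p + b y ^ q = c z ^ r` with `S`-unit coefficients near a given point

For an `S`-solution of `a x ^ p + b y ^ q = c z ^ r` let `t = (a x ^ p, b y ^ q, c z ^ r)` be the triple of its terms and
`B = max (|x|, |y|, |z|)` its largest base. Let `φ` be ANY map from the triples to a metric space, for example the ratio
`t ↦ a x ^ p / c z ^ r` in the real or `ℓ`-adic numbers.

**Theorem.** There is a set `E` of Hausdorff dimension zero such that for all points `m` outside of `E`, ALL finite sets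
`S` of primes and all `w > 0` there is `R` such that only finitely many triples of terms `t` come from `S`-solutions with
large exponents and `dist (φ t, m) ≤ B ^ (-w)`. Large exponents: two of them are at least `R`, or all are at least `2` and
one is at least `R`. There is no bound on the exponents, the coefficients or the terms.

More generally, with the same `E`, for all `n`: the coefficients are, up to sign, products of powers of `n` integers which
are at most `B ^ (1 / (R + 1))`; `n` and `w` are arbitrary and `R` depends on them.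

By the theorem of Darmon and Granville (not used here) the remaining finitely many triples of exponents `p, q, r ≥ 2` with
`1/p + 1/q + 1/r < 1` have only finitely many triples of terms altogether. So outside of a set of dimension zero there is
for every `S` no cluster of hyperbolic `S`-solutions at all with `p, q, r ≥ 2` (as is the case in the question).

Proof: the starting result `SolutionsByBases` (`O(Y ^ ε)` triples of terms of solutions with bases at most `Y` and large
exponents) and a covering argument with the size of the bases, for exponents which grow with the precision.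
-/

set_option autoImplicit false

namespace Pool.Agent.Results.MP_be1fae_nt.SolutionsNearPoints

open Pool.Agent.Results.MP_be1fae_nt.SolutionsByBases
  (Solution TwoLarge OneLarge ByBases Bases General Coefficient)

/-- the largest absolute value of the bases -/
def maxBase (x y z : ℤ) : ℕ := max x.natAbs (max y.natAbs z.natAbs)

/-- the triples of terms `t` of the `S`-solutions with large exponents and `dist (φ t) m ≤ (largest base) ^ (-w)` -/
def Near {M : Type} [MetricSpace M] (φ : ℤ × ℤ × ℤ → M) (S : Finset ℕ) (R : ℕ) (w : ℝ) (m : M) : Set (ℤ × ℤ × ℤ) :=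
  {t | ∃ (a b c x y z : ℤ) (p q r : ℕ), Solution a b c x y z p q r ∧ t = (a * x ^ p, b * y ^ q, c * z ^ r) ∧
    (∀ l : ℕ, l.Prime → (l : ℤ) ∣ a * b * c → l ∈ S) ∧ (TwoLarge R p q r ∨ OneLarge R p q r) ∧
    dist (φ t) m ≤ (maxBase x y z : ℝ) ^ (-w)}

/-- the triples of terms `t` of the solutions with large exponents, coefficients which are products of powers of `n`
integers `≤ (largest base) ^ (1 / (R + 1))`, and `dist (φ t) m ≤ (largest base) ^ (-w)` -/
def NearGeneral {M : Type} [MetricSpace M] (φ : ℤ × ℤ × ℤ → M) (n R : ℕ) (w : ℝ) (m : M) : Set (ℤ × ℤ × ℤ) :=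
  {t | ∃ (a b c x y z : ℤ) (p q r : ℕ), Solution a b c x y z p q r ∧ t = (a * x ^ p, b * y ^ q, c * z ^ r) ∧
    (∀ e ∈ [a, b, c], Coefficient n ((maxBase x y z : ℝ) ^ (1 / ((R : ℝ) + 1))) e) ∧
    (TwoLarge R p q r ∨ OneLarge R p q r) ∧ dist (φ t) m ≤ (maxBase x y z : ℝ) ^ (-w)}

lemma maxBase_pos {x : ℤ} (hx : x ≠ 0) (y z : ℤ) : 1 ≤ maxBase x y z :=
  (Int.natAbs_pos.2 hx).trans_le (le_max_left _ _)

lemma bases (x y z : ℤ) : Bases (maxBase x y z : ℝ) x y z := by
  have h : ∀ u : ℤ, u.natAbs ≤ maxBase x y z → |(u : ℝ)| ≤ (maxBase x y z : ℝ) := by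
    intro u hu
    have h1 : ((u.natAbs : ℕ) : ℝ) = |(u : ℝ)| := by
      rw [Nat.cast_natAbs]; push_cast; rfl
    rw [← h1]
    exact_mod_cast hu
  exact ⟨h x (le_max_left _ _), h y ((le_max_left _ _).trans (le_max_right _ _)),
    h z ((le_max_right _ _).trans (le_max_right _ _))⟩

lemma bases_mono {Y Y' : ℝ} (h : Y ≤ Y') {x y z : ℤ} (hB : Bases Y x y z) : Bases Y' x y z :=
  ⟨hB.1.trans h, hB.2.1.trans h, hB.2.2.trans h⟩

lemma coef_mono {n : ℕ} {W W' : ℝ} (h : W ≤ W') {a : ℤ} (ha : Coefficient n W a) : Coefficient n W' a := by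
  obtain ⟨y, e, h1, h2⟩ := ha
  exact ⟨y, e, fun i => ⟨(h1 i).1, (h1 i).2.trans h⟩, h2⟩

lemma two_mono {R R' p q r : ℕ} (h : R ≤ R') : TwoLarge R' p q r → TwoLarge R p q r := by
  unfold TwoLarge
  omega

lemma one_mono {R R' p q r : ℕ} (h : R ≤ R') : OneLarge R' p q r → OneLarge R p q r := by
  unfold OneLarge
  omega

/-- **Theorem.** For every map `φ` of the triples of terms to a metric space `M` there is a set `E ⊆ M` of Hausdorff
dimension zero such that for all `m` outside of `E`: (1) for every finite set `S` of primes and `w > 0` there is `R` such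
that `Near φ S R w m` is finite; (2) for all `n` and `w > 0` there is `R` such that `NearGeneral φ n R w m` is finite. -/
theorem result (M : Type) [MetricSpace M] (φ : ℤ × ℤ × ℤ → M) :
    ∃ E : Set M, dimH E = 0 ∧ ∀ m ∉ E,
      (∀ (S : Finset ℕ) (w : ℝ), 0 < w → ∃ R : ℕ, (Near φ S R w m).Finite) ∧
      (∀ (n : ℕ) (w : ℝ), 0 < w → ∃ R : ℕ, (NearGeneral φ n R w m).Finite) := by
  obtain ⟨-, hgen, hS⟩ := Pool.Agent.Results.MP_be1fae_nt.SolutionsByBases.result
  obtain ⟨E₁, h1, h2⟩ := Pool.Agent.H107.ME.near_family φ (fun (S : Finset ℕ) R Y => ByBases S R Y)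
    (by
      rintro S R Y Y' - hYY t ⟨a, b, c, x, y, z, p, q, r, g1, g2, g3, g4, g5⟩
      exact ⟨a, b, c, x, y, z, p, q, r, g1, g2, g3, g4, bases_mono hYY g5⟩)
    (by
      intro S ε hε
      obtain ⟨R, C, -, h⟩ := hS S ε hε
      exact ⟨R, C, h⟩)
  obtain ⟨E₂, k1, k2⟩ := Pool.Agent.H107.ME.near_family φ
    (fun (n : ℕ) R Y => General n R (1 / ((R : ℝ) + 1)) Y)
    (by
      rintro n R Y Y' hY hYY t ⟨a, b, c, x, y, z, p, q, r, g1, g2, g3, g4, g5, g6, g7⟩
      have hη : (0 : ℝ) ≤ 1 / ((R : ℝ) + 1) := by positivity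
      have hle := Real.rpow_le_rpow (by linarith) hYY hη
      exact ⟨a, b, c, x, y, z, p, q, r, g1, g2, coef_mono hle g3, coef_mono hle g4, coef_mono hle g5,
        bases_mono hYY g6, g7⟩)
    (by
      intro n ε hε
      obtain ⟨R, C, η, hC, hη, h⟩ := hgen n ε hε
      obtain ⟨N, hN⟩ := exists_nat_gt (1 / η)
      refine ⟨max R N, C, fun Y hY => ?_⟩
      obtain ⟨e1, e2⟩ := h Y hY
      have hle : 1 / (((max R N : ℕ) : ℝ) + 1) ≤ η := by
        have h3 : (N : ℝ) ≤ ((max R N : ℕ) : ℝ) := by exact_mod_cast le_max_right _ _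
        rw [div_le_iff₀ (by positivity)]
        rw [div_lt_iff₀ hη] at hN
        nlinarith
      have hsub : General n (max R N) (1 / (((max R N : ℕ) : ℝ) + 1)) Y ⊆ General n R η Y := by
        rintro t ⟨a, b, c, x, y, z, p, q, r, g1, g2, g3, g4, g5, g6, g7⟩
        have hle' := Real.rpow_le_rpow_of_exponent_le hY hle
        exact ⟨a, b, c, x, y, z, p, q, r, g1, g2, coef_mono hle' g3, coef_mono hle' g4, coef_mono hle' g5,
          g6, g7.imp (two_mono (le_max_left _ _)) (one_mono (le_max_left _ _))⟩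
      refine ⟨e1.subset hsub, le_trans ?_ e2⟩
      exact_mod_cast Set.ncard_le_ncard hsub e1)
  refine ⟨E₁ ∪ E₂, ?_, fun m hm => ⟨fun S w hw => ?_, fun n w hw => ?_⟩⟩
  · rw [dimH_union, h1, k1, max_self]
  · obtain ⟨R, hR⟩ := h2 m (fun h => hm (Or.inl h)) S w hw
    refine ⟨R, hR.subset ?_⟩
    rintro t ⟨a, b, c, x, y, z, p, q, r, g1, g2, g3, g4, g5⟩
    exact ⟨maxBase x y z, maxBase_pos g1.2.2.2.2.1 y z,
      ⟨a, b, c, x, y, z, p, q, r, g1, g2, g3, g4, bases x y z⟩, g5⟩
  · obtain ⟨R, hR⟩ := k2 m (fun h => hm (Or.inr h)) n w hw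
    refine ⟨R, hR.subset ?_⟩
    rintro t ⟨a, b, c, x, y, z, p, q, r, g1, g2, g3, g4, g5⟩
    exact ⟨maxBase x y z, maxBase_pos g1.2.2.2.2.1 y z,
      ⟨a, b, c, x, y, z, p, q, r, g1, g2, g3 a (by simp), g3 b (by simp), g3 c (by simp),
        bases x y z, g4⟩, g5⟩

end Pool.Agent.Results.MP_be1fae_nt.SolutionsNearPoints
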