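import Pool.Agent.Results.MP_be1fae_nt.SmoothCoefficients
import Pool.Agent.H36PA.Seq

/-!
# Generalised Fermat equations with smooth coefficients: ALL tuples in the residue classes of almost every point

There is an absolute constant `δ > 0` with the following property. Let `p_1, …, p_m` be primes, `σ > 0`, `k ≥ 1`, let
`v_0, v_1, … ≥ 1` have exponent of convergence at most `τ` (for example `v_n = 2 ^ n`, `τ = 0`), and let `c_n` be ARBITRARY
points with natural numbers as coordinates. There is a set `E` of points `α = (α_j)`, `α_j ∈ ℤ_{p_j} ^ k`, of Hausdorff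
dimension at most `(k - δ + τ) / σ`, such that for all `α` outside `E`, all `K` and all large `n`, ALL `k`-tuples `A` of
positive integers with `|A_i - c_(n,i)| ≤ v_n` and `|A_i - α_{j,i}|_{p_j} ≤ v_n ^ (-σ)` for all `i` and `j` have no relation

  `a ∏ A_i ^ x_i + b ∏ A_i ^ y_i = c w ^ m`,

where (with `N = ⌊v_n⌋`) the coefficients `a`, `b` are nonzero and composed of primes at most `(log N) ^ (1/25)`, the
coefficient `c` is nonzero and composed of primes at most `(log N) ^ (9/10)`, the exponent `m` has a prime factor at most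
`(log N) ^ K` and no `r > exp (√(log N) / 3)` divides all `y_i - x_i`.

The `A` considered for a given `n` are about `v_n ^ (k (1 - m σ))` tuples; the dimension of the space of the `α` is `m k`, so
the theorem says something for `τ = 0`, `(k - δ) / k < m σ < 1`. Countably many sequences of centres are treated at once.
The definitions `Smooth` and `Rel` are those of the starting result `SmoothCoefficients`.
-/

set_option autoImplicit false

namespace Pool.Agent.Results.MP_be1fae_nt.TuplesInResidueClasses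

open Filter
open Pool.Agent.Results.MP_be1fae_nt.SmoothCoefficients

/-- The exponent of convergence of the sequence `v` is at most `τ`: the sum of the `v_n ^ (-q)` converges for all
`q > τ`. -/
def ExpLe (v : ℕ → ℝ) (τ : ℝ) : Prop := ∀ q : ℝ, τ < q → Summable fun n => (v n) ^ (-q)

theorem floor_ge {x : ℝ} (hx : 1 ≤ x) : x / 2 ≤ (⌊x⌋₊ : ℝ) := by
  have h1 : (1 : ℝ) ≤ (⌊x⌋₊ : ℝ) := by
    exact_mod_cast Nat.le_floor (by exact_mod_cast hx : ((1 : ℕ) : ℝ) ≤ x)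
  have h2 : x < (⌊x⌋₊ : ℝ) + 1 := Nat.lt_floor_add_one x
  linarith

/-- sequences with a finite exponent of convergence tend to infinity -/
theorem eventually_large {v : ℕ → ℝ} (hv : ∀ n, 1 ≤ v n) {τ : ℝ} (hτ : 0 ≤ τ) (hvτ : ExpLe v τ) (X : ℝ) (hX : 1 ≤ X) :
    ∃ n₁ : ℕ, ∀ n ≥ n₁, X ≤ v n := by
  have h1 := (hvτ (τ + 1) (by linarith)).tendsto_atTop_zero
  have hX0 : 0 < X := by linarith
  have h2 : ∀ᶠ n in atTop, (v n) ^ (-(τ + 1)) < X ^ (-(τ + 1)) := h1.eventually (gt_mem_nhds (Real.rpow_pos_of_pos hX0 _))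
  obtain ⟨n₁, hn₁⟩ := eventually_atTop.1 h2
  refine ⟨n₁, fun n hn => ?_⟩
  by_contra hc
  push Not at hc
  have h3 := hn₁ n hn
  have h4 : X ^ (-(τ + 1)) ≤ (v n) ^ (-(τ + 1)) :=
    Real.rpow_le_rpow_of_nonpos (lt_of_lt_of_le one_pos (hv n)) hc.le (by linarith)
  linarith

theorem result : ∃ δ : ℝ, 0 < δ ∧ δ ≤ 1 ∧ ∀ (k m : ℕ) (p : Fin m → ℕ) [∀ j, Fact (p j).Prime], 1 ≤ k →
    ∀ (c : ℕ → ℕ → Fin k → ℕ) (v : ℕ → ℝ) (τ σ : ℝ), (∀ n, 1 ≤ v n) → 0 ≤ τ → ExpLe v τ → 0 < σ →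
      ∃ E : Set (∀ j : Fin m, Fin k → ℤ_[p j]), dimH E ≤ ENNReal.ofReal (((k : ℝ) - δ + τ) / σ) ∧
        ∀ α ∉ E, ∀ K l : ℕ, ∃ n₀ : ℕ, ∀ n ≥ n₀, ∀ A : Fin k → ℕ, (∀ i, 0 < A i) →
          (∀ i, |(A i : ℝ) - c l n i| ≤ v n) → (∀ j i, ‖(A i : ℤ_[p j]) - α j i‖ ≤ (v n) ^ (-σ)) →
            ¬ Rel k ⌊v n⌋₊ K A := by
  classical
  obtain ⟨δ₀, hδ₀, h0⟩ := SmoothCoefficients.result
  obtain ⟨δ, hδe⟩ : ∃ δ : ℝ, δ = min δ₀ 1 := ⟨_, rfl⟩
  have hδ : 0 < δ := by rw [hδe]; exact lt_min hδ₀ one_pos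
  have hδ1 : δ ≤ 1 := by rw [hδe]; exact min_le_right _ _
  have hδ2 : δ ≤ δ₀ := by rw [hδe]; exact min_le_left _ _
  refine ⟨δ, hδ, hδ1, fun k m p _ hk c v τ σ hv hτ hvτ hσ => ?_⟩
  have hk1 : (1 : ℝ) ≤ k := by exact_mod_cast hk
  choose N₀ hN₀ using h0 k
  have hlarge : ∀ K : ℕ, ∃ n₁ : ℕ, ∀ n ≥ n₁, (N₀ K : ℝ) + 1 ≤ v n := fun K =>
    eventually_large hv hτ hvτ _ (by have : (0 : ℝ) ≤ N₀ K := Nat.cast_nonneg _; linarith)
  choose n₁ hn₁ using hlarge
  obtain ⟨E, hE1, hE2⟩ := Pool.Agent.H36PA.padic_seq p (J := ℕ × ℕ)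
    (fun l n => {A : Fin k → ℕ | n₁ l.1 ≤ n ∧ (∀ i, 0 < A i) ∧ (∀ i, |(A i : ℝ) - c l.2 n i| ≤ v n) ∧
      Rel k ⌊v n⌋₊ l.1 A}) hv (s := (k : ℝ) - δ) (by linarith) hτ hvτ (by
      rintro ⟨K, l⟩ ε hε
      refine ⟨2 ^ δ * 5 ^ (k : ℝ), fun n => ?_⟩
      have hv1 := hv n
      have hv0 : 0 < v n := by linarith
      obtain ⟨L, hL⟩ : ∃ L : ℕ, L = ⌈v n⌉₊ := ⟨_, rfl⟩
      have hL1 : v n ≤ L := by rw [hL]; exact Nat.le_ceil _
      have hL2 : (L : ℝ) < v n + 1 := by rw [hL]; exact Nat.ceil_lt_add_one hv0.le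
      obtain ⟨N, hN⟩ : ∃ N : ℕ, N = ⌊v n⌋₊ := ⟨_, rfl⟩
      have hNv : v n / 2 ≤ N := by rw [hN]; exact floor_ge hv1
      have hNle : (N : ℝ) ≤ v n := by rw [hN]; exact Nat.floor_le hv0.le
      have hNL : N ≤ 2 * L + 1 := by
        have h1 : (N : ℝ) ≤ L := by linarith
        have h2 : N ≤ L := by exact_mod_cast h1
        omega
      obtain ⟨a, ha⟩ : ∃ a : Fin k → ℕ, a = fun i => c l n i - (L + 1) := ⟨_, rfl⟩
      have hfin : {A : Fin k → ℕ | (∀ i, a i < A i ∧ A i ≤ a i + (2 * L + 1)) ∧ Rel k N K A}.Finite := by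
        apply Set.Finite.subset (Set.Finite.pi' fun i => Set.finite_Ioc (a i) (a i + (2 * L + 1)))
        rintro A ⟨hA, -⟩ i
        exact ⟨(hA i).1, (hA i).2⟩
      have hsub : {A : Fin k → ℕ | n₁ K ≤ n ∧ (∀ i, 0 < A i) ∧ (∀ i, |(A i : ℝ) - c l n i| ≤ v n) ∧
          Rel k ⌊v n⌋₊ K A} ⊆ {A : Fin k → ℕ | (∀ i, a i < A i ∧ A i ≤ a i + (2 * L + 1)) ∧ Rel k N K A} := by
        rintro A ⟨-, hA0, hA2, hA1⟩
        refine ⟨fun i => ?_, by rw [hN]; exact hA1⟩
        have h4 := abs_le.1 ((hA2 i).trans hL1)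
        have h5 : (c l n i : ℝ) ≤ A i + L := by linarith
        have h6 : (A i : ℝ) ≤ c l n i + L := by linarith
        have h5' : c l n i ≤ A i + L := by exact_mod_cast h5
        have h6' : A i ≤ c l n i + L := by exact_mod_cast h6
        have h7 := hA0 i
        rw [ha]
        constructor
        · show c l n i - (L + 1) < A i
          omega
        · show A i ≤ c l n i - (L + 1) + (2 * L + 1)
          omega
      refine ⟨hfin.subset hsub, ?_⟩
      by_cases hnn : n₁ K ≤ n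
      · have hvN := hn₁ K n hnn
        have hNN : N₀ K ≤ N := by
          rw [hN]
          exact Nat.le_floor (by linarith)
        have h1 := hN₀ K N hNN a (fun _ => 2 * L + 1) (fun _ => hNL)
        have hN1 : (1 : ℝ) ≤ N := by
          rw [hN]
          exact_mod_cast Nat.le_floor (by exact_mod_cast hv1 : ((1 : ℕ) : ℝ) ≤ v n)
        have e1 : (N : ℝ) ^ (-δ₀) ≤ 2 ^ δ * (v n) ^ (-δ) := by
          calc (N : ℝ) ^ (-δ₀) ≤ (N : ℝ) ^ (-δ) := Real.rpow_le_rpow_of_exponent_le hN1 (by linarith)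
            _ ≤ (v n / 2) ^ (-δ) := Real.rpow_le_rpow_of_nonpos (by positivity) hNv (by linarith)
            _ = 2 ^ δ * (v n) ^ (-δ) := by
                rw [Real.div_rpow hv0.le (by norm_num), Real.rpow_neg (by norm_num : (0 : ℝ) ≤ 2), div_inv_eq_mul,
                  mul_comm]
        have e2 : (((2 * L + 1 : ℕ) : ℝ)) ^ k ≤ (5 * v n) ^ k := by
          refine pow_le_pow_left₀ (Nat.cast_nonneg _) ?_ k
          push_cast
          linarith
        calc (({A : Fin k → ℕ | n₁ K ≤ n ∧ (∀ i, 0 < A i) ∧ (∀ i, |(A i : ℝ) - c l n i| ≤ v n) ∧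
              Rel k ⌊v n⌋₊ K A}.ncard : ℕ) : ℝ)
            ≤ (({A : Fin k → ℕ | (∀ i, a i < A i ∧ A i ≤ a i + (2 * L + 1)) ∧ Rel k N K A}.ncard : ℕ) : ℝ) := by
              exact_mod_cast Set.ncard_le_ncard hsub hfin
          _ ≤ (N : ℝ) ^ (-δ₀) * ∏ _i : Fin k, ((2 * L + 1 : ℕ) : ℝ) := h1
          _ = (N : ℝ) ^ (-δ₀) * ((2 * L + 1 : ℕ) : ℝ) ^ k := by
              rw [Finset.prod_const, Finset.card_univ, Fintype.card_fin]
          _ ≤ (2 ^ δ * (v n) ^ (-δ)) * (5 * v n) ^ k :=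
              mul_le_mul e1 e2 (by positivity) (by positivity)
          _ = 2 ^ δ * 5 ^ (k : ℝ) * (v n) ^ ((k : ℝ) - δ) := by
              rw [mul_pow, ← Real.rpow_natCast (5 : ℝ) k, ← Real.rpow_natCast (v n) k, sub_eq_add_neg,
                Real.rpow_add hv0]
              ring
          _ ≤ 2 ^ δ * 5 ^ (k : ℝ) * (v n) ^ ((k : ℝ) - δ + ε) := by
              apply mul_le_mul_of_nonneg_left _ (by positivity)
              exact Real.rpow_le_rpow_of_exponent_le hv1 (by linarith)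
      · have hempty : {A : Fin k → ℕ | n₁ K ≤ n ∧ (∀ i, 0 < A i) ∧ (∀ i, |(A i : ℝ) - c l n i| ≤ v n) ∧
            Rel k ⌊v n⌋₊ K A} = ∅ := by
          ext A
          simp only [Set.mem_empty_iff_false, iff_false]
          rintro ⟨h1, -⟩
          exact hnn h1
        rw [hempty, Set.ncard_empty, Nat.cast_zero]
        positivity) hσ
  refine ⟨E, hE1, fun α hα K l => ?_⟩
  obtain ⟨n₀, hn⟩ := hE2 α hα (K, l)
  refine ⟨max n₀ (n₁ K), fun n hn1 A hA0 hA1 hA2 hrel => ?_⟩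
  exact hn n ((le_max_left _ _).trans hn1) A ⟨(le_max_right _ _).trans hn1, hA0, hA1, hrel⟩ hA2

end Pool.Agent.Results.MP_be1fae_nt.TuplesInResidueClasses
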