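import Pool.Agent.Results.MP_be1fae_nt.SmoothCoefficients
import Pool.Agent.V11326.WI

/-!
# Generalised Fermat equations with smooth coefficients: ALL tuples in windows around almost every point

There is an absolute constant `δ > 0` with the following property. Let `v_0, v_1, … ≥ 1` have exponent of convergence at
most `τ` (for example `v_n = 2 ^ n`, `τ = 0`), `θ < 1` and `k ≥ 1`, and let `c_n` be ARBITRARY points with natural numbers as
coordinates (of any size, for instance `c_n = 0`, or much larger than `v_n`). There is a set `F ⊆ ℝ ^ k` of Hausdorff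
dimension at most `(k - δ + τ) / (1 - θ)`, of measure zero if `τ + k θ < δ`, such that for all `α` outside `F`, all `K` and
all large `n`, ALL `k`-tuples `A` of positive integers with `|A_i - (c_(n,i) + α_i v_n)| ≤ v_n ^ θ` for all `i` have no
relation

  `a ∏ A_i ^ x_i + b ∏ A_i ^ y_i = c w ^ m`,

where (with `N = ⌊v_n⌋`) the coefficients `a`, `b` are nonzero and composed of primes at most `(log N) ^ (1/25)`, the
coefficient `c` is nonzero and composed of primes at most `(log N) ^ (9/10)`, the exponent `m` has a prime factor at most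
`(log N) ^ K` and no `r > exp (√(log N) / 3)` divides all `y_i - x_i`. The coefficients, `w` and the exponents are
otherwise free and not bounded, no coprimality is assumed. Countably many sequences of centres are treated at once.

The proof combines the starting result `SmoothCoefficients` (a power saving in all boxes with sides at least `N`) with a
covering argument in `ℝ ^ k`. The definitions `Smooth` and `Rel` are those of that file.
-/

set_option autoImplicit false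

open MeasureTheory Filter

namespace Pool.Agent.Results.MP_be1fae_nt.TuplesInWindows

open Pool.Agent.Results.MP_be1fae_nt.SmoothCoefficients

/-- The exponent of convergence of the sequence `v` is at most `τ`: the sum of the `v_n ^ (-p)` converges for all
`p > τ`. -/
def ExpLe (v : ℕ → ℝ) (τ : ℝ) : Prop := ∀ p : ℝ, τ < p → Summable fun n => (v n) ^ (-p)

theorem floor_ge {x : ℝ} (hx : 1 ≤ x) : x / 2 ≤ (⌊x⌋₊ : ℝ) := by
  have h1 : (1 : ℝ) ≤ (⌊x⌋₊ : ℝ) := by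
    exact_mod_cast Nat.le_floor (by exact_mod_cast hx : ((1 : ℕ) : ℝ) ≤ x)
  have h2 : x < (⌊x⌋₊ : ℝ) + 1 := Nat.lt_floor_add_one x
  linarith

theorem result : ∃ δ : ℝ, 0 < δ ∧ δ ≤ 1 ∧ ∀ k : ℕ, 1 ≤ k → ∀ (c : ℕ → ℕ → Fin k → ℕ) (v : ℕ → ℝ) (τ θ : ℝ),
    (∀ n, 1 ≤ v n) → 0 ≤ τ → ExpLe v τ → θ < 1 →
      ∃ F : Set (Fin k → ℝ), dimH F ≤ ENNReal.ofReal (((k : ℝ) - δ + τ) / (1 - θ)) ∧
        (τ + k * θ < δ → volume F = 0) ∧
        ∀ α : Fin k → ℝ, α ∉ F → ∀ K j : ℕ, ∃ n₀ : ℕ, ∀ n : ℕ, n₀ ≤ n → ∀ A : Fin k → ℕ, (∀ i, 0 < A i) →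
          (∀ i, |(A i : ℝ) - (c j n i + α i * v n)| ≤ (v n) ^ θ) → ¬ Rel k ⌊v n⌋₊ K A := by
  obtain ⟨δ₀, hδ₀, h0⟩ := SmoothCoefficients.result
  obtain ⟨δ, hδe⟩ : ∃ δ : ℝ, δ = min δ₀ 1 := ⟨_, rfl⟩
  have hδ : 0 < δ := by rw [hδe]; exact lt_min hδ₀ one_pos
  have hδ1 : δ ≤ 1 := by rw [hδe]; exact min_le_right _ _
  have hδ2 : δ ≤ δ₀ := by rw [hδe]; exact min_le_left _ _
  refine ⟨δ, hδ, hδ1, fun k hk c v τ θ hv hτ hvτ hθ => ?_⟩
  have hk1 : (1 : ℝ) ≤ k := by exact_mod_cast hk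
  have htv : Tendsto v atTop atTop :=
    Pool.Agent.Y854.GM.tendsto_of_expLe (fun n => lt_of_lt_of_le one_pos (hv n)) hτ hvτ
  have hall : ∀ K : ℕ, ∃ F : Set (Fin k → ℝ), dimH F ≤ ENNReal.ofReal (((k : ℝ) - δ + τ) / (1 - θ)) ∧
      ∀ α : Fin k → ℝ, α ∉ F → ∀ j : ℕ, ∃ n₀ : ℕ, ∀ n : ℕ, n₀ ≤ n →
        ∀ A ∈ {A : Fin k → ℕ | (∀ i, 0 < A i) ∧ Rel k ⌊v n⌋₊ K A},
          (v n) ^ θ < ‖(fun i => (A i : ℝ) - c j n i) - v n • α‖ := by
    intro K
    obtain ⟨N₀, hN₀⟩ := h0 k K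
    refine Pool.Agent.V11326.WI.windowsKC (E := Fin k → ℝ)
      (fun _ n => {A : Fin k → ℕ | (∀ i, 0 < A i) ∧ Rel k ⌊v n⌋₊ K A})
      (fun j n A => fun i => (A i : ℝ) - c j n i) (s := (k : ℝ) - δ) hv hτ hvτ (by linarith) hθ ?_
    intro j B ε hε
    obtain ⟨n₁, hn₁⟩ := ((tendsto_atTop.1 htv ((N₀ : ℝ) + 1))).exists_forall_of_atTop
    refine ⟨2 ^ δ * (2 * (B : ℝ) + 5) ^ (k : ℝ), n₁, fun n hn => ?_⟩
    have hv1 := hv n
    have hv0 : 0 < v n := by linarith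
    have hvN := hn₁ n hn
    have hB : (0 : ℝ) ≤ B := Nat.cast_nonneg B
    obtain ⟨L, hL⟩ : ∃ L : ℕ, L = ⌈((B : ℝ) + 1) * v n⌉₊ := ⟨_, rfl⟩
    have hL1 : ((B : ℝ) + 1) * v n ≤ L := by rw [hL]; exact Nat.le_ceil _
    have hL2 : (L : ℝ) < ((B : ℝ) + 1) * v n + 1 := by rw [hL]; exact Nat.ceil_lt_add_one (by positivity)
    obtain ⟨N, hN⟩ : ∃ N : ℕ, N = ⌊v n⌋₊ := ⟨_, rfl⟩
    have hNN : N₀ ≤ N := by
      rw [hN]
      exact Nat.le_floor (by linarith)
    have hNv : v n / 2 ≤ N := by rw [hN]; exact floor_ge hv1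
    have hNle : (N : ℝ) ≤ v n := by rw [hN]; exact Nat.floor_le hv0.le
    have hNL : N ≤ 2 * L + 1 := by
      have : (N : ℝ) ≤ L := by nlinarith
      have : N ≤ L := by exact_mod_cast this
      omega
    obtain ⟨a, ha⟩ : ∃ a : Fin k → ℕ, a = fun i => c j n i - (L + 1) := ⟨_, rfl⟩
    have h1 := hN₀ N hNN a (fun _ => 2 * L + 1) (fun _ => hNL)
    have hfin : {A : Fin k → ℕ | (∀ i, a i < A i ∧ A i ≤ a i + (2 * L + 1)) ∧ Rel k N K A}.Finite := by
      apply Set.Finite.subset (Set.Finite.pi' fun i => Set.finite_Ioc (a i) (a i + (2 * L + 1)))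
      rintro A ⟨hA, -⟩ i
      exact ⟨(hA i).1, (hA i).2⟩
    have hsub : {A : Fin k → ℕ | A ∈ {A : Fin k → ℕ | (∀ i, 0 < A i) ∧ Rel k ⌊v n⌋₊ K A} ∧
        ‖(fun i => (A i : ℝ) - c j n i)‖ ≤ ((B : ℝ) + 1) * v n} ⊆
        {A : Fin k → ℕ | (∀ i, a i < A i ∧ A i ≤ a i + (2 * L + 1)) ∧ Rel k N K A} := by
      rintro A ⟨⟨hA0, hA1⟩, hA2⟩
      refine ⟨fun i => ?_, by rw [hN]; exact hA1⟩
      rw [pi_norm_le_iff_of_nonneg (by positivity)] at hA2
      have h3 := hA2 i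
      rw [Real.norm_eq_abs] at h3
      have h4 := abs_le.1 (h3.trans hL1)
      have h5 : (c j n i : ℝ) ≤ A i + L := by linarith
      have h6 : (A i : ℝ) ≤ c j n i + L := by linarith
      have h5' : c j n i ≤ A i + L := by exact_mod_cast h5
      have h6' : A i ≤ c j n i + L := by exact_mod_cast h6
      have h7 := hA0 i
      rw [ha]
      constructor
      · show c j n i - (L + 1) < A i
        omega
      · show A i ≤ c j n i - (L + 1) + (2 * L + 1)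
        omega
    refine ⟨hfin.subset hsub, ?_⟩
    have hN1 : (1 : ℝ) ≤ N := by
      rw [hN]
      exact_mod_cast Nat.le_floor (by exact_mod_cast hv1 : ((1 : ℕ) : ℝ) ≤ v n)
    have e1 : (N : ℝ) ^ (-δ₀) ≤ 2 ^ δ * (v n) ^ (-δ) := by
      calc (N : ℝ) ^ (-δ₀) ≤ (N : ℝ) ^ (-δ) := Real.rpow_le_rpow_of_exponent_le hN1 (by linarith)
        _ ≤ (v n / 2) ^ (-δ) := Real.rpow_le_rpow_of_nonpos (by positivity) hNv (by linarith)
        _ = 2 ^ δ * (v n) ^ (-δ) := by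
            rw [Real.div_rpow hv0.le (by norm_num), Real.rpow_neg (by norm_num : (0 : ℝ) ≤ 2), div_inv_eq_mul,
              mul_comm]
    have e2 : (((2 * L + 1 : ℕ) : ℝ)) ^ k ≤ ((2 * (B : ℝ) + 5) * v n) ^ k := by
      refine pow_le_pow_left₀ (Nat.cast_nonneg _) ?_ k
      push_cast
      nlinarith
    calc (({A : Fin k → ℕ | A ∈ {A : Fin k → ℕ | (∀ i, 0 < A i) ∧ Rel k ⌊v n⌋₊ K A} ∧
          ‖(fun i => (A i : ℝ) - c j n i)‖ ≤ ((B : ℝ) + 1) * v n}.ncard : ℕ) : ℝ)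
        ≤ (({A : Fin k → ℕ | (∀ i, a i < A i ∧ A i ≤ a i + (2 * L + 1)) ∧ Rel k N K A}.ncard : ℕ) : ℝ) := by
          exact_mod_cast Set.ncard_le_ncard hsub hfin
      _ ≤ (N : ℝ) ^ (-δ₀) * ∏ _i : Fin k, ((2 * L + 1 : ℕ) : ℝ) := h1
      _ = (N : ℝ) ^ (-δ₀) * ((2 * L + 1 : ℕ) : ℝ) ^ k := by
          rw [Finset.prod_const, Finset.card_univ, Fintype.card_fin]
      _ ≤ (2 ^ δ * (v n) ^ (-δ)) * ((2 * (B : ℝ) + 5) * v n) ^ k :=
          mul_le_mul e1 e2 (by positivity) (by positivity)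
      _ = 2 ^ δ * (2 * (B : ℝ) + 5) ^ (k : ℝ) * (v n) ^ ((k : ℝ) - δ) := by
          rw [mul_pow, ← Real.rpow_natCast (2 * (B : ℝ) + 5) k, ← Real.rpow_natCast (v n) k,
            sub_eq_add_neg, Real.rpow_add hv0]
          ring
      _ ≤ 2 ^ δ * (2 * (B : ℝ) + 5) ^ (k : ℝ) * (v n) ^ ((k : ℝ) - δ + ε) := by
          apply mul_le_mul_of_nonneg_left _ (by positivity)
          exact Real.rpow_le_rpow_of_exponent_le hv1 (by linarith)
  choose F hF1 hF2 using hall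
  have hdim : dimH (⋃ K, F K) ≤ ENNReal.ofReal (((k : ℝ) - δ + τ) / (1 - θ)) := by
    rw [dimH_iUnion]
    exact iSup_le hF1
  have hcard : (Fintype.card (Fin k) : ℝ) = k := by rw [Fintype.card_fin]
  refine ⟨⋃ K, F K, hdim, fun hc => ?_, fun α hα K j => ?_⟩
  · exact Pool.Agent.V11326.WI.null (c := δ) (by rw [hcard]; linarith) hτ hθ
      (by rw [hcard]; exact hdim) (by rw [hcard]; exact hc)
  · obtain ⟨n₀, hn⟩ := hF2 K α (fun h => hα (Set.mem_iUnion.2 ⟨K, h⟩)) j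
    refine ⟨n₀, fun n hn1 A hA0 hw hrel => ?_⟩
    refine absurd ?_ (not_le.2 (hn n hn1 A ⟨hA0, hrel⟩))
    rw [pi_norm_le_iff_of_nonneg (Real.rpow_nonneg (by linarith [hv n]) _)]
    intro i
    have h3 := hw i
    rw [Pi.sub_apply, Pi.smul_apply, smul_eq_mul, Real.norm_eq_abs, mul_comm (v n)]
    have e : (A i : ℝ) - c j n i - α i * v n = (A i : ℝ) - (c j n i + α i * v n) := by ring
    rw [e]
    exact h3

end Pool.Agent.Results.MP_be1fae_nt.TuplesInWindows
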